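import Pool.Agent.H738R3.BB.Defs

/-!
Project BB, task ARC: summation over four arcs (helper784).
-/

set_option autoImplicit false

namespace H738BB

theorem ARC_tele (m : ℕ) (f : Fin (m + 1) → ℝ) (t : Fin (m + 1)) :
    ∑ e, (f ((finRotate (m + 1)).symm e) - f e) * (if e ≤ t then 1 else 0) =
      f (Fin.last m) - f t := by
  have h1 : ∑ e, f ((finRotate (m + 1)).symm e) * (if e ≤ t then (1 : ℝ) else 0) =
      ∑ e, f e * (if finRotate (m + 1) e ≤ t then (1 : ℝ) else 0) := by
    rw [← Equiv.sum_comp (finRotate (m + 1))]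
    refine Finset.sum_congr rfl (fun e _ => ?_)
    rw [Equiv.symm_apply_apply]
  have h2 : ∀ e : Fin (m + 1), (if finRotate (m + 1) e ≤ t then (1 : ℝ) else 0) -
      (if e ≤ t then 1 else 0) = (if e = Fin.last m then 1 else 0) - (if e = t then 1 else 0) := by
    intro e
    by_cases he : e = Fin.last m
    · subst he
      rw [finRotate_last, if_pos (Fin.zero_le _), if_pos rfl]
      by_cases ht : Fin.last m = t
      · rw [if_pos ht, if_pos ht.le]
      · rw [if_neg ht, if_neg (fun h => ht (le_antisymm h (Fin.le_last t)))]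
    · have hr : ((finRotate (m + 1) e : Fin (m + 1)) : ℕ) = e + 1 := coe_finRotate_of_ne_last he
      rw [if_neg he]
      by_cases ht : e = t
      · subst ht
        have h3 : ¬ finRotate (m + 1) e ≤ e := by
          intro h
          have := Fin.le_def.1 h
          omega
        rw [if_neg h3, if_pos le_rfl, if_pos rfl]
      · rw [if_neg ht]
        have hne : (e : ℕ) ≠ t := fun h => ht (Fin.ext h)
        by_cases hle : e ≤ t
        · have h3 : finRotate (m + 1) e ≤ t := by
            have := Fin.le_def.1 hle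
            apply Fin.le_def.2
            omega
          rw [if_pos h3, if_pos hle, sub_self, sub_self]
        · have h3 : ¬ finRotate (m + 1) e ≤ t := by
            intro h
            have := Fin.le_def.1 h
            exact hle (Fin.le_def.2 (by omega))
          rw [if_neg h3, if_neg hle]
  calc ∑ e, (f ((finRotate (m + 1)).symm e) - f e) * (if e ≤ t then (1 : ℝ) else 0)
      = ∑ e, f ((finRotate (m + 1)).symm e) * (if e ≤ t then (1 : ℝ) else 0) -
        ∑ e, f e * (if e ≤ t then (1 : ℝ) else 0) := by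
        rw [← Finset.sum_sub_distrib]
        exact Finset.sum_congr rfl (fun e _ => by ring)
    _ = ∑ e, f e * ((if finRotate (m + 1) e ≤ t then (1 : ℝ) else 0) -
        (if e ≤ t then (1 : ℝ) else 0)) := by
        rw [h1, ← Finset.sum_sub_distrib]
        exact Finset.sum_congr rfl (fun e _ => by ring)
    _ = ∑ e, f e * ((if e = Fin.last m then (1 : ℝ) else 0) - (if e = t then 1 else 0)) :=
        Finset.sum_congr rfl (fun e _ => by rw [h2])
    _ = f (Fin.last m) - f t := by
        simp [mul_sub, Finset.sum_sub_distrib]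

theorem ARC_tele2 (d m : ℕ) (c : Fin (m + 1) → EE d) (t : Fin (m + 1)) (v : EE d) :
    ∑ e, inner ℝ (c ((finRotate (m + 1)).symm e) - c e) ((if e ≤ t then (1 : ℝ) else 0) • v) =
      inner ℝ (c (Fin.last m)) v - inner ℝ (c t) v := by
  rw [← ARC_tele m (fun e => inner ℝ (c e) v) t]
  refine Finset.sum_congr rfl (fun e _ => ?_)
  rw [inner_smul_right, inner_sub_left]
  ring

theorem t_ARC : S_ARC := by
  intro d n P p c hP i j k l hij hjk hkl y hy
  obtain ⟨m, rfl⟩ : ∃ m, n = m + 1 := ⟨n - 1, by have := i.isLt; omega⟩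
  obtain ⟨Y, hY⟩ : ∃ Y : Fin (m + 1) → EE d, Y = fun e =>
      (if e ≤ i then (1 : ℝ) else 0) • (y 3 - y 0) + (if e ≤ j then (1 : ℝ) else 0) • (y 0 - y 1) +
      (if e ≤ k then (1 : ℝ) else 0) • (y 1 - y 2) + (if e ≤ l then (1 : ℝ) else 0) • (y 2 - y 3) +
      y 3 := ⟨_, rfl⟩
  have hYP : ∀ e, Y e ∈ P := by
    intro e
    rw [hY]
    simp only
    by_cases h1 : e ≤ i
    · have e1 : e ≤ j := h1.trans hij
      have e2 : e ≤ k := e1.trans hjk
      have e3 : e ≤ l := e2.trans hkl
      rw [if_pos h1, if_pos e1, if_pos e2, if_pos e3]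
      have : (1 : ℝ) • (y 3 - y 0) + (1 : ℝ) • (y 0 - y 1) + (1 : ℝ) • (y 1 - y 2) +
        (1 : ℝ) • (y 2 - y 3) + y 3 = y 3 := by module
      rw [this]
      exact hy 3
    · rw [if_neg h1]
      by_cases h2 : e ≤ j
      · have e2 : e ≤ k := h2.trans hjk
        have e3 : e ≤ l := e2.trans hkl
        rw [if_pos h2, if_pos e2, if_pos e3]
        have : (0 : ℝ) • (y 3 - y 0) + (1 : ℝ) • (y 0 - y 1) + (1 : ℝ) • (y 1 - y 2) +
          (1 : ℝ) • (y 2 - y 3) + y 3 = y 0 := by module
        rw [this]
        exact hy 0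
      · rw [if_neg h2]
        by_cases h3 : e ≤ k
        · have e3 : e ≤ l := h3.trans hkl
          rw [if_pos h3, if_pos e3]
          have : (0 : ℝ) • (y 3 - y 0) + (0 : ℝ) • (y 0 - y 1) + (1 : ℝ) • (y 1 - y 2) +
            (1 : ℝ) • (y 2 - y 3) + y 3 = y 1 := by module
          rw [this]
          exact hy 1
        · rw [if_neg h3]
          by_cases h4 : e ≤ l
          · rw [if_pos h4]
            have : (0 : ℝ) • (y 3 - y 0) + (0 : ℝ) • (y 0 - y 1) + (0 : ℝ) • (y 1 - y 2) +
              (1 : ℝ) • (y 2 - y 3) + y 3 = y 2 := by module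
            rw [this]
            exact hy 2
          · rw [if_neg h4]
            have : (0 : ℝ) • (y 3 - y 0) + (0 : ℝ) • (y 0 - y 1) + (0 : ℝ) • (y 1 - y 2) +
              (0 : ℝ) • (y 2 - y 3) + y 3 = y 3 := by module
            rw [this]
            exact hy 3
  have hsum : ∑ e, inner ℝ (c ((finRotate (m + 1)).symm e) - c e) (Y e) =
      inner ℝ (c i - c j) (y 0) + inner ℝ (c j - c k) (y 1) + inner ℝ (c k - c l) (y 2)
      + inner ℝ (c l - c i) (y 3) := by
    have h0 : ∑ e, inner ℝ (c ((finRotate (m + 1)).symm e) - c e) (y 3) = 0 := by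
      rw [← sum_inner, Finset.sum_sub_distrib, Equiv.sum_comp, sub_self, inner_zero_left]
    rw [hY]
    simp only [inner_add_right, Finset.sum_add_distrib]
    rw [ARC_tele2, ARC_tele2, ARC_tele2, ARC_tele2, h0]
    simp only [inner_sub_left, inner_sub_right]
    ring
  rw [← hsum]
  refine Finset.sum_le_sum (fun e _ => ?_)
  have h := hP e (Y e) (hYP e)
  rw [inner_sub_right] at h
  simp only [inner_sub_left] at h ⊢
  linarith

end H738BB
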