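import Pool.Agent.H738R3.BB.Defs

/-! CON: a complete set contains a segment of length `D` in every direction. -/

set_option autoImplicit false

namespace H738BB

theorem CON_norm {d : ℕ} (p q n : EE d) (s r D : ℝ) (hs0 : 0 ≤ s) (hs1 : s ≤ 1) (hr : 0 ≤ r)
    (hn : ‖n‖ = 1) (hp : ‖p‖ ≤ D) (hq : ‖q‖ ≤ D)
    (h : 2 * r * D + r ^ 2 ≤ s * (1 - s) * ‖p - q‖ ^ 2) :
    ‖(1 - s) • p + s • q + r • n‖ ≤ D := by
  have hD : 0 ≤ D := (norm_nonneg _).trans hp
  have e1 : ‖(1 - s) • p + s • q‖ ^ 2 =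
      (1 - s) ^ 2 * ‖p‖ ^ 2 + 2 * ((1 - s) * (s * inner ℝ p q)) + s ^ 2 * ‖q‖ ^ 2 := by
    rw [norm_add_sq_real, norm_smul, norm_smul, real_inner_smul_left, real_inner_smul_right,
      mul_pow, mul_pow, Real.norm_eq_abs, Real.norm_eq_abs, sq_abs, sq_abs]
  have e2 : ‖p - q‖ ^ 2 = ‖p‖ ^ 2 - 2 * inner ℝ p q + ‖q‖ ^ 2 := norm_sub_sq_real p q
  have e3 : ‖(1 - s) • p + s • q‖ ≤ D := by
    refine (norm_add_le _ _).trans ?_
    rw [norm_smul, norm_smul, Real.norm_eq_abs, Real.norm_eq_abs, abs_of_nonneg hs0,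
      abs_of_nonneg (by linarith : (0 : ℝ) ≤ 1 - s)]
    nlinarith
  have e4 : inner ℝ ((1 - s) • p + s • q) n ≤ D := by
    refine (real_inner_le_norm _ _).trans ?_
    rw [hn, mul_one]
    exact e3
  have e5 : ‖(1 - s) • p + s • q + r • n‖ ^ 2 =
      ‖(1 - s) • p + s • q‖ ^ 2 + 2 * (r * inner ℝ ((1 - s) • p + s • q) n) + r ^ 2 := by
    rw [norm_add_sq_real, real_inner_smul_right, norm_smul, hn, mul_one, Real.norm_eq_abs, sq_abs]
  have e6 : ‖p‖ ^ 2 ≤ D ^ 2 := pow_le_pow_left₀ (norm_nonneg _) hp 2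
  have e7 : ‖q‖ ^ 2 ≤ D ^ 2 := pow_le_pow_left₀ (norm_nonneg _) hq 2
  have e8 : ‖(1 - s) • p + s • q + r • n‖ ^ 2 ≤ D ^ 2 := by
    rw [e5, e1]
    rw [e2] at h
    have c1 : r * inner ℝ ((1 - s) • p + s • q) n ≤ r * D := mul_le_mul_of_nonneg_left e4 hr
    have c2 : (1 - s) * ‖p‖ ^ 2 ≤ (1 - s) * D ^ 2 :=
      mul_le_mul_of_nonneg_left e6 (by linarith)
    have c3 : s * ‖q‖ ^ 2 ≤ s * D ^ 2 := mul_le_mul_of_nonneg_left e7 hs0
    nlinarith
  exact (pow_le_pow_iff_left₀ (norm_nonneg _) hD two_ne_zero).1 e8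

theorem t_CON : S_CON := by
  intro d D K hD hne hK n hn
  obtain ⟨x₀, hx₀⟩ := hne
  have hclosed : IsClosed K := by
    have : K = ⋂ x ∈ K, Metric.closedBall x D := by
      ext y
      rw [Set.mem_iInter₂]
      exact hK y
    rw [this]
    exact isClosed_biInter fun x _ => Metric.isClosed_closedBall
  have hbdd : Bornology.IsBounded K :=
    (Metric.isBounded_closedBall (x := x₀) (r := D)).subset fun y hy => (hK y).1 hy x₀ hx₀
  have hcomp : IsCompact K := Metric.isCompact_of_isClosed_isBounded hclosed hbdd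
  obtain ⟨z, hz, hmax⟩ := hcomp.exists_isMaxOn ⟨x₀, hx₀⟩
    (f := fun y : EE d => inner ℝ n y) (by fun_prop)
  have hmax' : ∀ y ∈ K, inner ℝ n y ≤ inner ℝ n z := fun y hy => hmax hy
  refine ⟨z - D • n, ?_, by rw [sub_add_cancel]; exact hz⟩
  rw [hK]
  intro y hy
  rw [dist_eq_norm]
  set v := z - y with hv
  set b := inner ℝ n v with hb
  have hb0 : 0 ≤ b := by
    rw [hb, hv, inner_sub_right]
    linarith [hmax' y hy]
  have e1 : z - D • n - y = v - D • n := by
    rw [hv]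
    abel
  rw [e1]
  have e2 : ‖v - D • n‖ ^ 2 = ‖v‖ ^ 2 - 2 * (D * b) + D ^ 2 := by
    rw [norm_sub_sq_real, real_inner_smul_right, norm_smul, hn, mul_one, Real.norm_eq_abs, sq_abs,
      real_inner_comm]
  suffices h : ‖v‖ ^ 2 ≤ 2 * D * b by
    refine (pow_le_pow_iff_left₀ (norm_nonneg _) hD two_ne_zero).1 ?_
    rw [e2]
    linarith
  by_contra hlt
  push Not at hlt
  set g := ‖v‖ ^ 2 - 2 * D * b with hg
  have hg0 : 0 < g := by rw [hg]; linarith
  set η := g / (4 * (D + 1)) with hη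
  have hη0 : 0 < η := by positivity
  have hηD : 2 * η * D ≤ g / 2 := by
    rw [hη]
    have : 2 * (g / (4 * (D + 1))) * D = g / 2 * (D / (D + 1)) := by
      field_simp
      ring
    rw [this]
    have h1 : D / (D + 1) ≤ 1 := by
      rw [div_le_one (by linarith)]
      linarith
    nlinarith
  have hv2 : 0 < ‖v‖ ^ 2 := by
    have : 0 ≤ 2 * D * b := by positivity
    linarith
  set C := (b + η) ^ 2 + ‖v‖ ^ 2 with hC
  have hC0 : 0 < C := by
    have := sq_nonneg (b + η)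
    linarith
  set s := g / (2 * C) with hs
  have hs0 : 0 < s := by positivity
  have hsC : s * C = g / 2 := by
    rw [hs]
    field_simp
  have hs1 : s ≤ 1 / 2 := by
    rw [hs, div_le_iff₀ (by positivity)]
    have h1 : 0 ≤ 2 * D * b := by positivity
    have h2 := sq_nonneg (b + η)
    linarith
  set r := s * (b + η) with hr
  have hr0 : 0 ≤ r := by positivity
  have hreq : 2 * r * D + r ^ 2 ≤ s * (1 - s) * ‖v‖ ^ 2 := by
    have h1 : 2 * (b + η) * D + s * (b + η) ^ 2 ≤ (1 - s) * ‖v‖ ^ 2 := by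
      have h2 : s * ((b + η) ^ 2 + ‖v‖ ^ 2) = g / 2 := hsC
      linarith
    have h3 := mul_le_mul_of_nonneg_left h1 hs0.le
    calc 2 * r * D + r ^ 2 = s * (2 * (b + η) * D + s * (b + η) ^ 2) := by rw [hr]; ring
      _ ≤ s * ((1 - s) * ‖v‖ ^ 2) := h3
      _ = s * (1 - s) * ‖v‖ ^ 2 := by ring
  have hw : z - s • v + r • n ∈ K := by
    rw [hK]
    intro x hx
    rw [dist_eq_norm]
    have h1 : z - s • v + r • n - x = (1 - s) • (z - x) + s • (y - x) + r • n := by
      rw [hv, sub_smul, one_smul, smul_sub, smul_sub, smul_sub]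
      abel
    rw [h1]
    refine CON_norm (z - x) (y - x) n s r D hs0.le (by linarith) hr0 hn ?_ ?_ ?_
    · rw [← dist_eq_norm]
      exact (hK z).1 hz x hx
    · rw [← dist_eq_norm]
      exact (hK y).1 hy x hx
    · rw [sub_sub_sub_cancel_right]
      exact hreq
  have h1 := hmax' _ hw
  rw [inner_add_right, inner_sub_right, real_inner_smul_right, real_inner_smul_right,
    real_inner_self_eq_norm_sq, hn] at h1
  have h2 : r ≤ s * b := by
    rw [hb]
    linarith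
  rw [hr] at h2
  nlinarith

end H738BB
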