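import Pool.Agent.H738R3.BB.Defs

set_option autoImplicit false

namespace H738BB

theorem t_CPL : S_CPL := by
  intro d D X hD hX
  let F : Set (Set (EE d)) := {K | ∀ x ∈ K, ∀ y ∈ K, dist x y ≤ D}
  have hFm : ∀ K : Set (EE d), K ∈ F ↔ ∀ x ∈ K, ∀ y ∈ K, dist x y ≤ D := fun K => Iff.rfl
  obtain ⟨K, hXK, hK⟩ := zorn_subset_nonempty F (by
    intro c hc hchain hne
    refine ⟨⋃₀ c, ?_, fun s hs => Set.subset_sUnion_of_mem hs⟩
    rw [hFm]
    intro x hx y hy
    obtain ⟨s, hs, hxs⟩ := Set.mem_sUnion.mp hx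
    obtain ⟨t, ht, hyt⟩ := Set.mem_sUnion.mp hy
    rcases hchain.total hs ht with h | h
    · exact (hFm t).1 (hc ht) x (h hxs) y hyt
    · exact (hFm s).1 (hc hs) x hxs y (h hyt)) X ((hFm X).2 hX)
  refine ⟨K, hXK, ?_⟩
  intro y
  constructor
  · intro hy x hx
    exact (hFm K).1 hK.prop y hy x hx
  · intro hy
    have h1 : insert y K ∈ F := by
      rw [hFm]
      intro a ha b hb
      rcases Set.mem_insert_iff.mp ha with ha1 | ha1
      · rcases Set.mem_insert_iff.mp hb with hb1 | hb1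
        · rw [ha1, hb1, dist_self]
          exact hD
        · rw [ha1]
          exact hy b hb1
      · rcases Set.mem_insert_iff.mp hb with hb1 | hb1
        · rw [hb1, dist_comm]
          exact hy a ha1
        · exact (hFm K).1 hK.prop a ha1 b hb1
    have h2 : insert y K ⊆ K := hK.le_of_ge h1 (Set.subset_insert y K)
    exact h2 (Set.mem_insert y K)

end H738BB
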