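import Mathlib

/-!
Project BB (helper738): shortest generalized billiard trajectories in fat ball-polyhedra are
2-periodic (MP_17bf10_co, S04993).  Definitions and statements.
-/

set_option autoImplicit false

namespace H738BB

/-- Euclidean space. -/
abbrev EE (d : ℕ) := EuclideanSpace ℝ (Fin d)

/-- Perimeter of the closed 4-gon `a b c e` (vertices may coincide). -/
noncomputable def per4 {d : ℕ} (a b c e : EE d) : ℝ :=
  ‖a - b‖ + ‖b - c‖ + ‖c - e‖ + ‖e - a‖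

/-- Sum of the squared sides of the closed 4-gon `a b c e`. -/
noncomputable def sq4 {d : ℕ} (a b c e : EE d) : ℝ :=
  ‖a - b‖ ^ 2 + ‖b - c‖ ^ 2 + ‖c - e‖ ^ 2 + ‖e - a‖ ^ 2

/-- The trajectory conditions of the frozen statement S04993 (without `2 ≤ n`). -/
def Traj {d : ℕ} (P : Set (EE d)) (n : ℕ) (p : Fin n → EE d) : Prop :=
  ∀ i : Fin n,
    p i ∈ frontier P ∧
    p i ≠ p (finRotate n i) ∧
    ((dist (p (finRotate n i)) (p i))⁻¹ • (p (finRotate n i) - p i)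
      + (dist (p ((finRotate n).symm i)) (p i))⁻¹ • (p ((finRotate n).symm i) - p i)) ≠ 0 ∧
    ∀ x ∈ P,
      0 ≤ inner ℝ ((dist (p (finRotate n i)) (p i))⁻¹ • (p (finRotate n i) - p i)
            + (dist (p ((finRotate n).symm i)) (p i))⁻¹ • (p ((finRotate n).symm i) - p i))
           (x - p i)

/-- The ball-polyhedron with centres `S`. -/
def BP {d : ℕ} (S : Finset (EE d)) : Set (EE d) := ⋂ c ∈ S, Metric.closedBall c (1 : ℝ)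

/-- CPL: completion (Zorn). -/
def S_CPL : Prop := ∀ (d : ℕ) (D : ℝ) (X : Set (EE d)), 0 ≤ D →
  (∀ x ∈ X, ∀ y ∈ X, dist x y ≤ D) →
  ∃ K : Set (EE d), X ⊆ K ∧ ∀ y : EE d, y ∈ K ↔ ∀ x ∈ K, dist y x ≤ D

/-- CON: a complete set contains a segment of length `D` in every direction. -/
def S_CON : Prop := ∀ (d : ℕ) (D : ℝ) (K : Set (EE d)), 0 ≤ D → K.Nonempty →
  (∀ y : EE d, y ∈ K ↔ ∀ x ∈ K, dist y x ≤ D) →
  ∀ n : EE d, ‖n‖ = 1 → ∃ x ∈ K, x + D • n ∈ K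

/-- FLOW: the variance bound. -/
def S_FLOW : Prop := ∀ (d : ℕ) (D : ℝ) (M x : Fin 4 → EE d), 0 ≤ D → ∑ a, M a = 0 →
  (∀ a b, dist (x a) (x b) ≤ D) →
  -(∑ a, inner ℝ (M a) (x a)) ≤ D * Real.sqrt (((∑ a, ‖M a‖) ^ 2 - ∑ a, ‖M a‖ ^ 2) / 2)

/-- NUM: the final numerical inequality. -/
def S_NUM : Prop := ∀ D P Q : ℝ, 0 ≤ D → D ≤ 1 → 4 < P → 8 ≤ Q →
  4 - 2 * D < P - D * Real.sqrt ((P ^ 2 - Q) / 2)

/-- WMAT: pairing of the first half of a positive measure on `Fin n` with its second half. -/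
def S_WMAT : Prop := ∀ (n : ℕ) (μ : Fin n → ℝ), (∀ i, 0 < μ i) →
  ∃ W : Fin n → Fin n → ℝ, (∀ i k, 0 ≤ W i k) ∧
    (∀ e, (∑ k, W e k) + (∑ i, W i e) = μ e) ∧
    (∀ i k j l, 0 < W i k → 0 < W j l →
      (i ≤ j ∧ j ≤ k ∧ k ≤ l) ∨ (j ≤ i ∧ i ≤ l ∧ l ≤ k))

/-- QNEG: a quadruple with negative product, or all pairs antipodal. -/
def S_QNEG : Prop := ∀ (d n : ℕ) (μ : Fin n → ℝ) (c : Fin n → EE d), (∀ i, 0 < μ i) →
  ∑ i, μ i • c i = 0 →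
  (∃ i j k l : Fin n, i ≤ j ∧ j ≤ k ∧ k ≤ l ∧ inner ℝ (c i + c k) (c j + c l) < 0) ∨
  ((∀ e, ∃ f, c f = - c e) ∧
    ∀ e f : Fin n, ∃ i j k l : Fin n, i ≤ j ∧ j ≤ k ∧ k ≤ l ∧ c k = - c i ∧ c l = - c j ∧
      ((c i = c e ∨ c i = - c e) ∧ (c j = c f ∨ c j = - c f) ∨
       (c i = c f ∨ c i = - c f) ∧ (c j = c e ∨ c j = - c e)))

/-- QUAD: the good quadruple. -/
def S_QUAD : Prop := ∀ (d n : ℕ) (μ : Fin n → ℝ) (c : Fin n → EE d), 3 ≤ n → (∀ i, 0 < μ i) →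
  (∀ i, ‖c i‖ = 1) → (∀ i, c i ≠ c (finRotate n i)) → ∑ i, μ i • c i = 0 →
  ∃ i j k l : Fin n, i ≤ j ∧ j ≤ k ∧ k ≤ l ∧
    8 ≤ sq4 (c i) (c j) (c k) (c l) ∧ 4 < per4 (c i) (c j) (c k) (c l)

/-- ARC: summation over four arcs. -/
def S_ARC : Prop := ∀ (d n : ℕ) (P : Set (EE d)) (p c : Fin n → EE d),
  (∀ e, ∀ x ∈ P, 0 ≤ inner ℝ (c e - c ((finRotate n).symm e)) (x - p e)) →
  ∀ i j k l : Fin n, i ≤ j → j ≤ k → k ≤ l → ∀ y : Fin 4 → EE d, (∀ a, y a ∈ P) →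
    inner ℝ (c i - c j) (y 0) + inner ℝ (c j - c k) (y 1) + inner ℝ (c k - c l) (y 2)
      + inner ℝ (c l - c i) (y 3)
      ≤ ∑ e, inner ℝ (c ((finRotate n).symm e) - c e) (p e)

/-- LEN: the length of a closed polygon in terms of its unit edge directions. -/
def S_LEN : Prop := ∀ (d n : ℕ) (p c : Fin n → EE d),
  (∀ i, p i ≠ p (finRotate n i)) →
  (∀ i, c i = (dist (p (finRotate n i)) (p i))⁻¹ • (p (finRotate n i) - p i)) →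
  (∀ i, ‖c i‖ = 1) ∧ (∑ i, dist (p i) (p (finRotate n i)) • c i = 0) ∧
  (∑ i, dist (p i) (p (finRotate n i)) = ∑ e, inner ℝ (c ((finRotate n).symm e) - c e) (p e)) ∧
  (∀ i, (dist (p ((finRotate n).symm i)) (p i))⁻¹ • (p ((finRotate n).symm i) - p i)
      = - c ((finRotate n).symm i))

/-- LOW: every trajectory with at least three vertices is longer than `4 - 2 D`. -/
def S_LOW : Prop := ∀ (d : ℕ) (S : Finset (EE d)) (D : ℝ), S.Nonempty → 0 ≤ D → D ≤ 1 →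
  (∀ c ∈ S, ∀ c' ∈ S, dist c c' ≤ D) →
  ∀ (n : ℕ) (p : Fin n → EE d), 3 ≤ n → Traj (BP S) n p →
    4 - 2 * D < ∑ i, dist (p i) (p (finRotate n i))

/-- TWO: the 2-periodic trajectory of length `4 - 2 D`. -/
def S_TWO : Prop := ∀ (d : ℕ) (S : Finset (EE d)) (D : ℝ), 1 ≤ d → D ≤ 1 →
  (∀ c ∈ S, ∀ c' ∈ S, dist c c' ≤ D) → (∃ x₁ ∈ S, ∃ x₂ ∈ S, dist x₁ x₂ = D) →
  ∃ q : Fin 2 → EE d, Traj (BP S) 2 q ∧ ∑ j, dist (q j) (q (finRotate 2 j)) = 4 - 2 * D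

/-- FIN: the frozen statement S04993 with `Traj` and `BP` folded. -/
def S_FIN : Prop := ∀ (d : ℕ), 1 ≤ d → ∀ S : Finset (EE d), S.Nonempty →
  (∀ c ∈ S, ∀ c' ∈ S, dist c c' ≤ 1) →
  ∀ (n : ℕ) (p : Fin n → EE d), 2 ≤ n → Traj (BP S) n p →
    (∀ (m : ℕ) (q : Fin m → EE d), 2 ≤ m → Traj (BP S) m q →
      ∑ i, dist (p i) (p (finRotate n i)) ≤ ∑ j, dist (q j) (q (finRotate m j))) →
    n = 2

end H738BB
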