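import Pool.Agent.H738R3.BB.Defs

set_option autoImplicit false

namespace H738BB

theorem t_FIN (hLOW : S_LOW) (hTWO : S_TWO) : S_FIN := by
  intro d hd S hS hdist n p hn hp hmin
  by_contra hne
  have hn3 : 3 ≤ n := by omega
  obtain ⟨z, hz, hzmax⟩ := Finset.exists_max_image (S ×ˢ S) (fun z => dist z.1 z.2)
    (hS.product hS)
  rw [Finset.mem_product] at hz
  have hD1 : dist z.1 z.2 ≤ 1 := hdist z.1 hz.1 z.2 hz.2
  have hall : ∀ c ∈ S, ∀ c' ∈ S, dist c c' ≤ dist z.1 z.2 := by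
    intro c hc c' hc'
    exact hzmax (c, c') (Finset.mem_product.mpr ⟨hc, hc'⟩)
  have h1 := hLOW d S (dist z.1 z.2) hS dist_nonneg hD1 hall n p hn3 hp
  obtain ⟨q, hq, hqlen⟩ := hTWO d S (dist z.1 z.2) hd hD1 hall ⟨z.1, hz.1, z.2, hz.2, rfl⟩
  have h2 := hmin 2 q le_rfl hq
  rw [hqlen] at h2
  linarith

end H738BB
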