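import Pool.Agent.H738R3.BB.Defs

/-! FLOW: the variance bound. -/

set_option autoImplicit false

namespace H738BB

open Finset

theorem FLOW_var {d : ℕ} {ι : Type} [Fintype ι] (m : ι → ℝ) (hm : ∀ a, 0 ≤ m a) (u : ι → EE d)
    (hu : ∑ a, m a • u a = 0) (D : ℝ) (h : ∀ a b, ‖u a - u b‖ ≤ D) :
    (∑ a, m a) * ∑ a, m a * ‖u a‖ ^ 2 ≤ D ^ 2 * (((∑ a, m a) ^ 2 - ∑ a, m a ^ 2) / 2) := by
  classical
  have hin : ∑ a, ∑ b, m a * m b * inner ℝ (u a) (u b) = 0 := by
    have h1 : inner ℝ (∑ a, m a • u a) (∑ b, m b • u b) =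
        ∑ a, ∑ b, m a * m b * inner ℝ (u a) (u b) := by
      rw [sum_inner]
      refine Finset.sum_congr rfl fun a _ => ?_
      rw [inner_sum]
      refine Finset.sum_congr rfl fun b _ => ?_
      rw [real_inner_smul_left, real_inner_smul_right]
      ring
    rw [← h1, hu, inner_zero_left]
  have e1 : ∑ a, ∑ b, m a * m b * ‖u a - u b‖ ^ 2 =
      2 * ((∑ a, m a) * ∑ a, m a * ‖u a‖ ^ 2) := by
    have h1 : ∀ a b, m a * m b * ‖u a - u b‖ ^ 2 =
        m b * (m a * ‖u a‖ ^ 2) - 2 * (m a * m b * inner ℝ (u a) (u b)) +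
          m a * (m b * ‖u b‖ ^ 2) := by
      intro a b
      rw [norm_sub_sq_real]
      ring
    simp only [h1, Finset.sum_add_distrib, Finset.sum_sub_distrib, ← Finset.mul_sum]
    rw [hin]
    have h2 : ∑ a, ∑ b, m b * (m a * ‖u a‖ ^ 2) = (∑ a, m a) * ∑ a, m a * ‖u a‖ ^ 2 := by
      rw [Finset.sum_comm, Finset.sum_mul]
      refine Finset.sum_congr rfl fun b _ => ?_
      rw [Finset.mul_sum]
    rw [h2, ← Finset.sum_mul]
    ring
  have e2 : ∑ a, ∑ b, m a * m b * ‖u a - u b‖ ^ 2 ≤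
      ∑ a, ∑ b, (m a * m b * D ^ 2 - if a = b then m a ^ 2 * D ^ 2 else 0) := by
    refine Finset.sum_le_sum fun a _ => Finset.sum_le_sum fun b _ => ?_
    by_cases hab : a = b
    · subst hab
      rw [if_pos rfl, sub_self, norm_zero]
      apply le_of_eq
      ring
    · rw [if_neg hab, sub_zero]
      exact mul_le_mul_of_nonneg_left (pow_le_pow_left₀ (norm_nonneg _) (h a b) 2)
        (mul_nonneg (hm a) (hm b))
  have e3 : ∑ a, ∑ b, (m a * m b * D ^ 2 - if a = b then m a ^ 2 * D ^ 2 else 0) =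
      D ^ 2 * ((∑ a, m a) ^ 2 - ∑ a, m a ^ 2) := by
    simp only [Finset.sum_sub_distrib, Finset.sum_ite_eq, Finset.mem_univ, if_true]
    rw [sq (∑ a, m a), Finset.sum_mul_sum, mul_sub, Finset.mul_sum, Finset.mul_sum]
    congr 1
    · refine Finset.sum_congr rfl fun a _ => ?_
      rw [Finset.mul_sum]
      refine Finset.sum_congr rfl fun b _ => ?_
      ring
    · refine Finset.sum_congr rfl fun a _ => ?_
      ring
  rw [e1, e3] at e2
  linarith

theorem t_FLOW : S_FLOW := by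
  intro d D M x hD hM hx
  set P := ∑ a, ‖M a‖ with hP
  have hP0 : 0 ≤ P := Finset.sum_nonneg fun a _ => norm_nonneg _
  rcases hP0.eq_or_lt with h0 | h0
  · have hz : ∀ a, M a = 0 := by
      intro a
      have h1 := (Finset.sum_eq_zero_iff_of_nonneg (fun a _ => norm_nonneg (M a))).1 h0.symm a
        (Finset.mem_univ a)
      exact norm_eq_zero.1 h1
    have h1 : ∑ a, inner ℝ (M a) (x a) = 0 := by
      refine Finset.sum_eq_zero fun a _ => ?_
      rw [hz a, inner_zero_left]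
    rw [h1, neg_zero]
    positivity
  · set xb : EE d := P⁻¹ • ∑ a, ‖M a‖ • x a with hxb
    set u : Fin 4 → EE d := fun a => x a - xb with hu
    have hu0 : ∑ a, ‖M a‖ • u a = 0 := by
      simp only [hu, smul_sub, Finset.sum_sub_distrib]
      rw [← Finset.sum_smul, hxb, ← hP, smul_smul, mul_inv_cancel₀ h0.ne', one_smul, sub_self]
    have hv := FLOW_var (fun a => ‖M a‖) (fun a => norm_nonneg _) u hu0 D (fun a b => by
      have : u a - u b = x a - x b := by
        simp only [hu]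
        abel
      rw [this, ← dist_eq_norm]
      exact hx a b)
    simp only [← hP] at hv
    have hsum : ∑ a, inner ℝ (M a) (x a) = ∑ a, inner ℝ (M a) (u a) := by
      simp only [hu, inner_sub_right, Finset.sum_sub_distrib]
      rw [← sum_inner, hM, inner_zero_left, sub_zero]
    have hle : -(∑ a, inner ℝ (M a) (x a)) ≤ ∑ a, ‖M a‖ * ‖u a‖ := by
      rw [hsum, ← Finset.sum_neg_distrib]
      refine Finset.sum_le_sum fun a _ => ?_
      have := abs_real_inner_le_norm (M a) (u a)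
      have h2 := neg_abs_le (inner ℝ (M a) (u a))
      linarith
    have hcs : (∑ a, ‖M a‖ * ‖u a‖) ^ 2 ≤ P * ∑ a, ‖M a‖ * ‖u a‖ ^ 2 := by
      have h1 := Finset.sum_mul_sq_le_sq_mul_sq Finset.univ (fun a => √‖M a‖)
        (fun a => √‖M a‖ * ‖u a‖)
      have h2 : ∀ a, √‖M a‖ * (√‖M a‖ * ‖u a‖) = ‖M a‖ * ‖u a‖ := fun a => by
        rw [← mul_assoc, Real.mul_self_sqrt (norm_nonneg _)]
      have h3 : ∀ a, √‖M a‖ ^ 2 = ‖M a‖ := fun a => Real.sq_sqrt (norm_nonneg _)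
      have h4 : ∀ a, (√‖M a‖ * ‖u a‖) ^ 2 = ‖M a‖ * ‖u a‖ ^ 2 := fun a => by
        rw [mul_pow, h3]
      simp only [h2, h3, h4] at h1
      exact h1
    refine hle.trans ?_
    have hfin : (∑ a, ‖M a‖ * ‖u a‖) ^ 2 ≤ D ^ 2 * ((P ^ 2 - ∑ a, ‖M a‖ ^ 2) / 2) :=
      hcs.trans hv
    have h5 := Real.le_sqrt_of_sq_le hfin
    rw [Real.sqrt_mul (sq_nonneg D), Real.sqrt_sq hD] at h5
    exact h5

end H738BB
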