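import Pool.Agent.H738R3.BB.Defs

set_option autoImplicit false

namespace H738BB

theorem t_LEN : S_LEN := by
  intro d n p c hp hc
  have hr : ∀ i, dist (p (finRotate n i)) (p i) ≠ 0 := fun i h => hp i (dist_eq_zero.mp h).symm
  have h1 : ∀ i, ‖c i‖ = 1 := by
    intro i
    rw [hc i, norm_smul, norm_inv, Real.norm_of_nonneg dist_nonneg, ← dist_eq_norm]
    exact inv_mul_cancel₀ (hr i)
  have h2 : ∀ i, dist (p i) (p (finRotate n i)) • c i = p (finRotate n i) - p i := by
    intro i
    rw [hc i, smul_smul, dist_comm, mul_inv_cancel₀ (hr i), one_smul]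
  have h3 : ∀ i, inner ℝ (c i) (p (finRotate n i) - p i) = dist (p i) (p (finRotate n i)) := by
    intro i
    rw [← h2 i, inner_smul_right, real_inner_self_eq_norm_sq, h1 i]
    norm_num
  refine ⟨h1, ?_, ?_, ?_⟩
  · rw [Finset.sum_congr rfl (fun i _ => h2 i), Finset.sum_sub_distrib,
      Equiv.sum_comp (finRotate n) p, sub_self]
  · rw [← Finset.sum_congr rfl (fun i _ => h3 i)]
    have e1 : ∑ i, inner ℝ (c i) (p (finRotate n i) - p i)
        = ∑ i, inner ℝ (c i) (p (finRotate n i)) - ∑ i, inner ℝ (c i) (p i) := by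
      rw [← Finset.sum_sub_distrib]
      exact Finset.sum_congr rfl (fun i _ => inner_sub_right _ _ _)
    have e2 : ∑ i, inner ℝ (c i) (p (finRotate n i))
        = ∑ e, inner ℝ (c ((finRotate n).symm e)) (p e) := by
      rw [← Equiv.sum_comp (finRotate n) (fun e => inner ℝ (c ((finRotate n).symm e)) (p e))]
      refine Finset.sum_congr rfl (fun i _ => ?_)
      simp only [Equiv.symm_apply_apply]
    rw [e1, e2, ← Finset.sum_sub_distrib]
    exact Finset.sum_congr rfl (fun i _ => (inner_sub_left _ _ _).symm)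
  · intro i
    rw [hc ((finRotate n).symm i), Equiv.apply_symm_apply, ← smul_neg, neg_sub,
      dist_comm (p ((finRotate n).symm i)) (p i)]

end H738BB
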