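import Pool.Agent.H738R3.BB.Defs

/-! Project BB, task LOW: every trajectory with at least three vertices is longer than `4 - 2 D`. -/

set_option autoImplicit false

namespace H738BB

theorem LOW_pt (hCON : S_CON) {d : ℕ} {S : Finset (EE d)} {D : ℝ} (hS : S.Nonempty) (hD0 : 0 ≤ D)
    (hD1 : D ≤ 1) (hSS : ∀ c ∈ S, ∀ c' ∈ S, dist c c' ≤ D) {K : Set (EE d)}
    (hSK : (S : Set (EE d)) ⊆ K) (hK : ∀ y : EE d, y ∈ K ↔ ∀ x ∈ K, dist y x ≤ D) (m : EE d) :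
    ∃ x y : EE d, x ∈ K ∧ y ∈ BP S ∧ inner ℝ m y = ‖m‖ + inner ℝ m x := by
  obtain ⟨c₀, hc₀⟩ := hS
  by_cases hm : m = 0
  · refine ⟨c₀, c₀, hSK hc₀, ?_, ?_⟩
    · unfold BP
      rw [Set.mem_iInter₂]
      intro c hc
      rw [Metric.mem_closedBall]
      exact (hSS c₀ hc₀ c hc).trans hD1
    · rw [hm]
      simp
  · have hm0 : 0 < ‖m‖ := norm_pos_iff.2 hm
    have hn : ‖(‖m‖⁻¹ • m)‖ = 1 := by
      rw [norm_smul, norm_inv, norm_norm, inv_mul_cancel₀ hm0.ne']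
    obtain ⟨x, hx, hx'⟩ := hCON d D K hD0 ⟨c₀, hSK hc₀⟩ hK (‖m‖⁻¹ • m) hn
    refine ⟨x, x + ‖m‖⁻¹ • m, hx, ?_, ?_⟩
    · unfold BP
      rw [Set.mem_iInter₂]
      intro c hc
      rw [Metric.mem_closedBall]
      have h1 : dist (x + D • (‖m‖⁻¹ • m)) c ≤ D := (hK _).1 hx' c (hSK hc)
      have h2 : dist (x + ‖m‖⁻¹ • m) (x + D • (‖m‖⁻¹ • m)) = 1 - D := by
        rw [dist_eq_norm]
        have : x + ‖m‖⁻¹ • m - (x + D • (‖m‖⁻¹ • m)) = (1 - D) • (‖m‖⁻¹ • m) := by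
          rw [sub_smul, one_smul]
          abel
        rw [this, norm_smul, hn, mul_one, Real.norm_of_nonneg (by linarith)]
      calc dist (x + ‖m‖⁻¹ • m) c ≤
            dist (x + ‖m‖⁻¹ • m) (x + D • (‖m‖⁻¹ • m)) + dist (x + D • (‖m‖⁻¹ • m)) c :=
            dist_triangle _ _ _
        _ ≤ (1 - D) + D := by rw [h2]; linarith
        _ = 1 := by ring
    · rw [inner_add_right, inner_smul_right, real_inner_self_eq_norm_sq]
      field_simp
      ring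

theorem t_LOW (hCPL : S_CPL) (hCON : S_CON) (hFLOW : S_FLOW) (hNUM : S_NUM) (hQUAD : S_QUAD)
    (hARC : S_ARC) (hLEN : S_LEN) : S_LOW := by
  intro d S D hS hD0 hD1 hSS n p hn hT
  have hne : ∀ i, p i ≠ p (finRotate n i) := fun i => (hT i).2.1
  obtain ⟨c, hc⟩ : ∃ c : Fin n → EE d, ∀ i, c i =
      (dist (p (finRotate n i)) (p i))⁻¹ • (p (finRotate n i) - p i) := ⟨_, fun _ => rfl⟩
  obtain ⟨h1, h2, h3, h4⟩ := hLEN d n p c hne hc
  have hcc : ∀ i, c i ≠ c (finRotate n i) := by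
    intro i h
    have h5 := (hT (finRotate n i)).2.2.1
    rw [← hc, h4, Equiv.symm_apply_apply] at h5
    apply h5
    rw [h]
    simp
  obtain ⟨i, j, k, l, hij, hjk, hkl, h8, hper⟩ :=
    hQUAD d n (fun i => dist (p i) (p (finRotate n i))) c hn (fun i => dist_pos.2 (hne i)) h1 hcc h2
  obtain ⟨K, hXK, hK⟩ := hCPL d D (S : Set (EE d)) hD0 (fun x hx y hy => hSS x hx y hy)
  obtain ⟨M, hM⟩ : ∃ M : Fin 4 → EE d, M = ![c i - c j, c j - c k, c k - c l, c l - c i] :=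
    ⟨_, rfl⟩
  have hM0 : M 0 = c i - c j := by rw [hM]; rfl
  have hM1 : M 1 = c j - c k := by rw [hM]; rfl
  have hM2 : M 2 = c k - c l := by rw [hM]; rfl
  have hM3 : M 3 = c l - c i := by rw [hM]; rfl
  choose x y hx hy hxy using fun a => LOW_pt hCON hS hD0 hD1 hSS hXK hK (M a)
  have harc := hARC d n (BP S) p c (fun e z hz => by
    have h5 := (hT e).2.2.2 z hz
    rw [← hc, h4] at h5
    rw [sub_eq_add_neg]
    exact h5) i j k l hij hjk hkl y hy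
  rw [← h3, ← hM0, ← hM1, ← hM2, ← hM3, hxy, hxy, hxy, hxy] at harc
  have hflow := hFLOW d D M x hD0 (by
    rw [Fin.sum_univ_four, hM0, hM1, hM2, hM3]
    abel) (fun a b => (hK _).1 (hx a) _ (hx b))
  have hP : ∑ a, ‖M a‖ = per4 (c i) (c j) (c k) (c l) := by
    rw [Fin.sum_univ_four, hM0, hM1, hM2, hM3]
    rfl
  have hQ : ∑ a, ‖M a‖ ^ 2 = sq4 (c i) (c j) (c k) (c l) := by
    rw [Fin.sum_univ_four, hM0, hM1, hM2, hM3]
    rfl
  rw [hP, hQ] at hflow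
  have hnum := hNUM D _ _ hD0 hD1 hper h8
  rw [Fin.sum_univ_four] at hflow
  rw [← hP, Fin.sum_univ_four] at hnum
  rw [← hP, Fin.sum_univ_four] at hflow
  linarith

end H738BB
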