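import Pool.Agent.H738R3.BB.Defs

set_option autoImplicit false

namespace H738BB

theorem t_NUM : S_NUM := by
  intro D P Q hD hD1 hP hQ
  have h1 : Real.sqrt ((P ^ 2 - Q) / 2) < P - 2 := by
    rw [Real.sqrt_lt' (by linarith)]
    nlinarith [sq_nonneg (P - 4), mul_pos (sub_pos.mpr hP) (sub_pos.mpr hP)]
  rcases eq_or_lt_of_le hD with h0 | h0
  · rw [← h0]
    linarith
  · have h2 : D * Real.sqrt ((P ^ 2 - Q) / 2) < D * (P - 2) := mul_lt_mul_of_pos_left h1 h0
    nlinarith

end H738BB
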