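import Pool.Agent.H738R3.BB.Defs

/-! QNEG: a quadruple with negative product, or all pairs antipodal. -/

set_option autoImplicit false

namespace H738BB

theorem QNEG_sum (d n : ℕ) (μ : Fin n → ℝ) (c : Fin n → EE d) (W : Fin n → Fin n → ℝ)
    (hW : ∀ e, (∑ k, W e k) + (∑ i, W i e) = μ e) (h0 : ∑ i, μ i • c i = 0) (v : EE d) :
    ∑ i, ∑ k, W i k * inner ℝ (c i + c k) v = 0 := by
  have h1 : ∑ i, ∑ k, W i k * inner ℝ (c i + c k) v =
      ∑ e, ((∑ k, W e k) + (∑ i, W i e)) * inner ℝ (c e) v := by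
    have h2 : ∀ e, ((∑ k, W e k) + (∑ i, W i e)) * inner ℝ (c e) v =
        ∑ k, W e k * inner ℝ (c e) v + ∑ i, W i e * inner ℝ (c e) v := by
      intro e
      rw [add_mul, Finset.sum_mul, Finset.sum_mul]
    rw [Finset.sum_congr rfl (fun e _ => h2 e), Finset.sum_add_distrib]
    have h3 : ∑ e, ∑ i, W i e * inner ℝ (c e) v = ∑ i, ∑ e, W i e * inner ℝ (c e) v :=
      Finset.sum_comm
    rw [h3, ← Finset.sum_add_distrib]
    refine Finset.sum_congr rfl fun i _ => ?_
    rw [← Finset.sum_add_distrib]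
    refine Finset.sum_congr rfl fun k _ => ?_
    rw [inner_add_left, mul_add]
  rw [h1]
  have h4 : ∑ e, ((∑ k, W e k) + (∑ i, W i e)) * inner ℝ (c e) v =
      inner ℝ (∑ e, μ e • c e) v := by
    rw [sum_inner]
    refine Finset.sum_congr rfl fun e _ => ?_
    rw [hW e, real_inner_smul_left]
  rw [h4, h0, inner_zero_left]

theorem t_QNEG (hWMAT : S_WMAT) : S_QNEG := by
  intro d n μ c hμ h0
  obtain ⟨W, hW0, hW1, hW2⟩ := hWMAT n μ hμ
  by_cases hneg : ∃ i k j l, 0 < W i k ∧ 0 < W j l ∧ inner ℝ (c i + c k) (c j + c l) < 0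
  · left
    obtain ⟨i, k, j, l, h1, h2, h3⟩ := hneg
    rcases hW2 i k j l h1 h2 with ⟨ha, hb, hc⟩ | ⟨ha, hb, hc⟩
    · exact ⟨i, j, k, l, ha, hb, hc, h3⟩
    · refine ⟨j, i, l, k, ha, hb, hc, ?_⟩
      rw [real_inner_comm]
      exact h3
  · right
    push Not at hneg
    have hanti : ∀ j l, 0 < W j l → c l = - c j := by
      intro j l hjl
      have hs := QNEG_sum d n μ c W hW1 h0 (c j + c l)
      have hnn : ∀ i k, 0 ≤ W i k * inner ℝ (c i + c k) (c j + c l) := by
        intro i k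
        rcases (hW0 i k).eq_or_lt with h | h
        · rw [← h, zero_mul]
        · exact mul_nonneg h.le (hneg i k j l h hjl)
      have hz1 := (Finset.sum_eq_zero_iff_of_nonneg
        (fun i _ => Finset.sum_nonneg fun k _ => hnn i k)).1 hs j (Finset.mem_univ j)
      have hz2 := (Finset.sum_eq_zero_iff_of_nonneg (fun k _ => hnn j k)).1 hz1 l
        (Finset.mem_univ l)
      have hz3 : inner ℝ (c j + c l) (c j + c l) = 0 := by
        rcases mul_eq_zero.1 hz2 with h | h
        · exact absurd h hjl.ne'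
        · exact h
      have hz4 : c j + c l = 0 := inner_self_eq_zero.1 hz3
      exact (neg_eq_of_add_eq_zero_right hz4).symm
    have hpair : ∀ e, ∃ i k, 0 < W i k ∧ (c i = c e ∨ c i = - c e) ∧ (e = i ∨ e = k) := by
      intro e
      by_contra hcon
      push Not at hcon
      have h1 : ∀ k, W e k = 0 := by
        intro k
        by_contra hk
        have hk' : 0 < W e k := lt_of_le_of_ne (hW0 e k) (Ne.symm hk)
        exact (hcon e k hk' (Or.inl rfl)).1 rfl
      have h2 : ∀ i, W i e = 0 := by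
        intro i
        by_contra hk
        have hk' : 0 < W i e := lt_of_le_of_ne (hW0 i e) (Ne.symm hk)
        have h3 : c i = - c e := by rw [hanti i e hk', neg_neg]
        exact (hcon i e hk' (Or.inr h3)).2 rfl
      have h3 := hW1 e
      have h4 := hμ e
      rw [← h3] at h4
      simp [h1, h2] at h4
    constructor
    · intro e
      obtain ⟨i, k, h1, _, h3⟩ := hpair e
      rcases h3 with rfl | rfl
      · exact ⟨k, hanti _ _ h1⟩
      · exact ⟨i, by rw [hanti _ _ h1, neg_neg]⟩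
    · intro e f
      obtain ⟨i, k, h1, h2, _⟩ := hpair e
      obtain ⟨j, l, h4, h5, _⟩ := hpair f
      rcases hW2 i k j l h1 h4 with ⟨ha, hb, hc⟩ | ⟨ha, hb, hc⟩
      · exact ⟨i, j, k, l, ha, hb, hc, hanti _ _ h1, hanti _ _ h4, Or.inl ⟨h2, h5⟩⟩
      · exact ⟨j, i, l, k, ha, hb, hc, hanti _ _ h4, hanti _ _ h1, Or.inr ⟨h5, h2⟩⟩

end H738BB
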