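import Pool.Agent.H738R3.BB.Defs

/-!
QUAD: the good quadruple.
-/

namespace H738BB

lemma QUAD_sq {d : ℕ} (a b : EE d) (ha : ‖a‖ = 1) (hb : ‖b‖ = 1) :
    ‖a - b‖ ^ 2 = 2 - 2 * inner ℝ a b := by
  rw [norm_sub_sq_real, ha, hb]
  ring

lemma QUAD_sq4 {d : ℕ} (a b c e : EE d) (ha : ‖a‖ = 1) (hb : ‖b‖ = 1) (hc : ‖c‖ = 1)
    (he : ‖e‖ = 1) : sq4 a b c e = 8 - 2 * inner ℝ (a + c) (b + e) := by
  unfold sq4
  rw [QUAD_sq a b ha hb, QUAD_sq b c hb hc, QUAD_sq c e hc he, QUAD_sq e a he ha, inner_add_left,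
    inner_add_right, inner_add_right, real_inner_comm b c, real_inner_comm e a]
  ring

lemma QUAD_le {d : ℕ} (a b : EE d) (ha : ‖a‖ = 1) (hb : ‖b‖ = 1) :
    ‖a - b‖ ^ 2 ≤ 2 * ‖a - b‖ := by
  have h1 : ‖a - b‖ ≤ 2 := by
    have := norm_sub_le a b
    rw [ha, hb] at this
    linarith
  have h2 : 0 ≤ ‖a - b‖ := norm_nonneg _
  nlinarith

lemma QUAD_per4 {d : ℕ} (a b c e : EE d) (ha : ‖a‖ = 1) (hb : ‖b‖ = 1) (hc : ‖c‖ = 1)
    (he : ‖e‖ = 1) : sq4 a b c e ≤ 2 * per4 a b c e := by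
  unfold sq4 per4
  have h1 := QUAD_le a b ha hb
  have h2 := QUAD_le b c hb hc
  have h3 := QUAD_le c e hc he
  have h4 := QUAD_le e a he ha
  linarith

lemma QUAD_anti {d : ℕ} (a b : EE d) (ha : ‖a‖ = 1) (hb : ‖b‖ = 1) (h1 : b ≠ a) (h2 : b ≠ -a) :
    4 < per4 a b (-a) (-b) := by
  have hx : 0 < ‖a - b‖ := norm_pos_iff.mpr (sub_ne_zero.mpr h1.symm)
  have hy : 0 < ‖a + b‖ := by
    apply norm_pos_iff.mpr
    intro h
    apply h2
    rw [← sub_eq_zero, sub_neg_eq_add, add_comm]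
    exact h
  have hs : ‖a - b‖ ^ 2 + ‖a + b‖ ^ 2 = 4 := by
    rw [norm_sub_sq_real, norm_add_sq_real, ha, hb]
    ring
  have e1 : per4 a b (-a) (-b) = 2 * (‖a - b‖ + ‖a + b‖) := by
    unfold per4
    have e1 : b - -a = a + b := by abel
    have e2 : -a - -b = -(a - b) := by abel
    have e3 : -b - a = -(a + b) := by abel
    rw [e1, e2, e3, norm_neg, norm_neg]
    ring
  rw [e1]
  nlinarith [mul_pos hx hy]

theorem t_QUAD (hQNEG : S_QNEG) : S_QUAD := by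
  intro d n μ c hn hμ hc hne hsum
  rcases hQNEG d n μ c hμ hsum with ⟨i, j, k, l, h1, h2, h3, h4⟩ | ⟨_, h2⟩
  · refine ⟨i, j, k, l, h1, h2, h3, ?_, ?_⟩
    · rw [QUAD_sq4 _ _ _ _ (hc i) (hc j) (hc k) (hc l)]
      linarith
    · have h5 := QUAD_sq4 _ _ _ _ (hc i) (hc j) (hc k) (hc l)
      have h6 := QUAD_per4 _ _ _ _ (hc i) (hc j) (hc k) (hc l)
      linarith
  · by_cases hef : ∃ e f : Fin n, c f ≠ c e ∧ c f ≠ - c e
    · obtain ⟨e, f, hf1, hf2⟩ := hef
      obtain ⟨i, j, k, l, g1, g2, g3, g4, g5, g6⟩ := h2 e f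
      refine ⟨i, j, k, l, g1, g2, g3, ?_, ?_⟩
      · rw [QUAD_sq4 _ _ _ _ (hc i) (hc j) (hc k) (hc l), g4, g5, add_neg_cancel, inner_zero_left]
        norm_num
      · rw [g4, g5]
        have h7 : c j ≠ c i ∧ c j ≠ - c i := by
          have hf3 : - c f ≠ c e := fun h => hf2 (by rw [← h, neg_neg])
          rcases g6 with ⟨ha, hb⟩ | ⟨ha, hb⟩ <;> rcases ha with ha | ha <;> rcases hb with hb | hb <;>
            rw [ha, hb] <;> simp only [neg_neg, ne_eq, neg_inj] <;>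
            first
            | exact ⟨hf1, hf2⟩
            | exact ⟨hf2, hf1⟩
            | exact ⟨hf3, hf1⟩
            | exact ⟨hf1, hf3⟩
            | exact ⟨fun h => hf1 h.symm, fun h => hf3 h.symm⟩
            | exact ⟨fun h => hf2 (by rw [h, neg_neg]), fun h => hf1 h.symm⟩
            | exact ⟨fun h => hf3 h.symm, fun h => hf1 h.symm⟩
            | exact ⟨fun h => hf1 h.symm, fun h => hf2 (by rw [h, neg_neg])⟩
            | exact ⟨fun h => hf2 h.symm, fun h => hf1 h.symm⟩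
            | exact ⟨fun h => hf1 h.symm, fun h => hf2 h.symm⟩
        exact QUAD_anti _ _ (hc i) (hc j) h7.1 h7.2
    · push Not at hef
      obtain ⟨m, rfl⟩ : ∃ m, n = m + 3 := ⟨n - 3, by omega⟩
      have e0 : finRotate (m + 3) ⟨0, by omega⟩ = ⟨1, by omega⟩ :=
        finRotate_of_lt (n := m + 2) (k := 0) (by omega)
      have e1 : finRotate (m + 3) ⟨1, by omega⟩ = ⟨2, by omega⟩ :=
        finRotate_of_lt (n := m + 2) (k := 1) (by omega)
      have k0 := hne ⟨0, by omega⟩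
      have k1 := hne ⟨1, by omega⟩
      have k2 := hne ⟨2, by omega⟩
      rw [e0] at k0
      rw [e1] at k1
      have c1 : c ⟨1, by omega⟩ = - c ⟨0, by omega⟩ :=
        hef ⟨0, by omega⟩ ⟨1, by omega⟩ k0.symm
      have c2 : c ⟨2, by omega⟩ = c ⟨0, by omega⟩ := by
        by_contra h
        have := hef ⟨0, by omega⟩ ⟨2, by omega⟩ h
        rw [this, c1] at k1
        exact k1 rfl
      have hm : m ≠ 0 := by
        rintro rfl
        have e2 : finRotate (0 + 3) ⟨2, by omega⟩ = ⟨0, by omega⟩ := finRotate_last' (n := 2)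
        rw [e2, c2] at k2
        exact k2 rfl
      have e2 : finRotate (m + 3) ⟨2, by omega⟩ = ⟨3, by omega⟩ :=
        finRotate_of_lt (n := m + 2) (k := 2) (by omega)
      rw [e2] at k2
      have c3 : c ⟨3, by omega⟩ = - c ⟨0, by omega⟩ := by
        apply hef
        intro h
        rw [c2, h] at k2
        exact k2 rfl
      have hv : ‖(2 : ℝ) • c ⟨0, by omega⟩‖ = 2 := by
        rw [norm_smul, hc]
        norm_num
      have s1 : c ⟨0, by omega⟩ - - c ⟨0, by omega⟩ = (2 : ℝ) • c ⟨0, by omega⟩ := by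
        rw [sub_neg_eq_add, two_smul]
      have s2 : - c ⟨0, by omega⟩ - c ⟨0, by omega⟩ = - ((2 : ℝ) • c ⟨0, by omega⟩) := by
        rw [two_smul]
        abel
      refine ⟨⟨0, by omega⟩, ⟨1, by omega⟩, ⟨2, by omega⟩, ⟨3, by omega⟩, ?_, ?_, ?_, ?_, ?_⟩
      · exact Fin.mk_le_mk.mpr (by omega)
      · exact Fin.mk_le_mk.mpr (by omega)
      · exact Fin.mk_le_mk.mpr (by omega)
      · rw [c1, c2, c3, sq4, s1, s2, norm_neg, hv]
        norm_num
      · rw [c1, c2, c3, per4, s1, s2, norm_neg, hv]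
        norm_num

end H738BB
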