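import Pool.Agent.H738R3.BB.Defs

set_option autoImplicit false

namespace H738BB

theorem TWO_unit (d : ℕ) (hd : 1 ≤ d) : ∃ u : EE d, ‖u‖ = 1 :=
  ⟨EuclideanSpace.single ⟨0, hd⟩ (1 : ℝ), by simp⟩

theorem TWO_mem (d : ℕ) (S : Finset (EE d)) (D : ℝ) (hD0 : 0 ≤ D) (hD : D ≤ 1)
    (h : ∀ c ∈ S, ∀ c' ∈ S, dist c c' ≤ D) (x u : EE d) (hx : x ∈ S) (hu : ‖u‖ = 1)
    (hx2 : x + D • u ∈ S) : x + u ∈ BP S := by
  simp only [BP, Set.mem_iInter, Metric.mem_closedBall]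
  intro c hc
  obtain ⟨w, rfl⟩ : ∃ w, c = x + w := ⟨c - x, by abel⟩
  have h1 : ‖w‖ ≤ D := by
    have := h _ hc _ hx
    rwa [dist_eq_norm, add_sub_cancel_left] at this
  have h2 : ‖w - D • u‖ ≤ D := by
    have := h _ hc _ hx2
    rwa [dist_eq_norm, add_sub_add_left_eq_sub] at this
  have e1 : ‖w - D • u‖ ^ 2 = ‖w‖ ^ 2 - 2 * (D * inner ℝ w u) + D ^ 2 := by
    rw [norm_sub_sq_real, inner_smul_right, norm_smul, hu, mul_one, Real.norm_eq_abs, sq_abs]
  have e2 : ‖u - w‖ ^ 2 = 1 - 2 * inner ℝ w u + ‖w‖ ^ 2 := by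
    rw [norm_sub_sq_real, hu, real_inner_comm]; ring
  have h3 : ‖w‖ ^ 2 ≤ 2 * (D * inner ℝ w u) := by
    have : ‖w - D • u‖ ^ 2 ≤ D ^ 2 := by
      apply pow_le_pow_left₀ (norm_nonneg _) h2
    linarith
  have h4 : 0 ≤ inner ℝ w u := by
    rcases hD0.eq_or_lt with h0 | h0
    · have : w = 0 := by
        rw [← norm_eq_zero]; apply le_antisymm _ (norm_nonneg _); rw [h0]; exact h1
      rw [this, inner_zero_left]
    · by_contra hneg
      push Not at hneg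
      nlinarith [sq_nonneg ‖w‖, mul_pos h0 (neg_pos.mpr hneg)]
  have h5 : ‖u - w‖ ^ 2 ≤ 1 ^ 2 := by
    rw [e2]; nlinarith
  rw [dist_eq_norm, add_sub_add_left_eq_sub]
  exact le_of_sq_le_sq h5 zero_le_one

theorem TWO_frontier (d : ℕ) (S : Finset (EE d)) (x u : EE d) (hx : x ∈ S) (hu : ‖u‖ = 1)
    (h : x + u ∈ BP S) : x + u ∈ frontier (BP S) := by
  refine ⟨subset_closure h, fun hi => ?_⟩
  have hsub : BP S ⊆ Metric.closedBall x 1 := by
    intro y hy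
    simp only [BP, Set.mem_iInter] at hy
    exact hy x hx
  have h2 := interior_mono hsub hi
  rw [interior_closedBall _ one_ne_zero, Metric.mem_ball, dist_eq_norm, add_sub_cancel_left, hu]
    at h2
  exact lt_irrefl _ h2

theorem TWO_cond (d : ℕ) (S : Finset (EE d)) (x u : EE d) (hx : x ∈ S) (hu : ‖u‖ = 1)
    (y : EE d) (hy : y ∈ BP S) : 0 ≤ inner ℝ (-u + -u) (y - (x + u)) := by
  have h1 : ‖y - x‖ ≤ 1 := by
    simp only [BP, Set.mem_iInter] at hy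
    have := hy x hx
    rwa [Metric.mem_closedBall, dist_eq_norm] at this
  have h2 : inner ℝ u (y - x) ≤ 1 := by
    calc inner ℝ u (y - x) ≤ ‖u‖ * ‖y - x‖ := real_inner_le_norm _ _
      _ ≤ 1 := by rw [hu, one_mul]; exact h1
  have h3 : y - (x + u) = (y - x) - u := by abel
  rw [h3, inner_add_left, inner_neg_left, inner_sub_right, real_inner_self_eq_norm_sq, hu]
  linarith

theorem TWO_ne (d : ℕ) (u : EE d) (hu : ‖u‖ = 1) : -u + -u ≠ 0 := by
  intro h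
  have : (2 : ℝ) • u = 0 := by
    rw [two_smul, ← neg_inj, neg_add, h, neg_zero]
  rcases smul_eq_zero.mp this with h | h
  · norm_num at h
  · rw [h, norm_zero] at hu; norm_num at hu

theorem t_TWO : S_TWO := by
  intro d S D hd hD h ⟨x₁, hx₁, x₂, hx₂, hdist⟩
  have hD0 : 0 ≤ D := hdist ▸ dist_nonneg
  obtain ⟨u, hu, hxu⟩ : ∃ u : EE d, ‖u‖ = 1 ∧ x₂ = x₁ + D • u := by
    rcases hD0.eq_or_lt with h0 | h0
    · obtain ⟨u, hu⟩ := TWO_unit d hd
      refine ⟨u, hu, ?_⟩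
      rw [← h0, zero_smul, add_zero]
      rw [← h0] at hdist
      exact (dist_eq_zero.mp hdist).symm
    · refine ⟨D⁻¹ • (x₂ - x₁), ?_, ?_⟩
      · rw [norm_smul, ← dist_eq_norm, dist_comm, hdist, norm_inv, Real.norm_of_nonneg hD0]
        exact inv_mul_cancel₀ h0.ne'
      · rw [smul_smul, mul_inv_cancel₀ h0.ne', one_smul]; abel
  have hu' : ‖-u‖ = 1 := by rw [norm_neg, hu]
  have hx1' : x₁ = x₂ + D • (-u) := by rw [hxu, smul_neg]; abel
  have hA : x₁ + u ∈ BP S := TWO_mem d S D hD0 hD h x₁ u hx₁ hu (hxu ▸ hx₂)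
  have hB : x₂ + (-u) ∈ BP S := TWO_mem d S D hD0 hD h x₂ (-u) hx₂ hu' (hx1' ▸ hx₁)
  have hAf := TWO_frontier d S x₁ u hx₁ hu hA
  have hBf := TWO_frontier d S x₂ (-u) hx₂ hu' hB
  have hpos : 0 < 2 - D := by linarith
  have hBA : (x₂ + -u) - (x₁ + u) = (2 - D) • (-u) := by
    rw [hxu, smul_neg, sub_smul, two_smul]; abel
  have hAB : (x₁ + u) - (x₂ + -u) = (2 - D) • u := by
    rw [hxu, sub_smul, two_smul]; abel
  have dBA : dist (x₂ + -u) (x₁ + u) = 2 - D := by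
    rw [dist_eq_norm, hBA, norm_smul, hu', mul_one, Real.norm_of_nonneg hpos.le]
  have dAB : dist (x₁ + u) (x₂ + -u) = 2 - D := by rw [dist_comm, dBA]
  have vBA : (dist (x₂ + -u) (x₁ + u))⁻¹ • ((x₂ + -u) - (x₁ + u)) = -u := by
    rw [dBA, hBA, smul_smul, inv_mul_cancel₀ hpos.ne', one_smul]
  have vAB : (dist (x₁ + u) (x₂ + -u))⁻¹ • ((x₁ + u) - (x₂ + -u)) = u := by
    rw [dAB, hAB, smul_smul, inv_mul_cancel₀ hpos.ne', one_smul]
  have hne : x₁ + u ≠ x₂ + -u := by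
    intro hh
    rw [hh, dist_self] at dAB
    linarith
  have r0 : finRotate 2 0 = 1 := by decide
  have r1 : finRotate 2 1 = 0 := by decide
  have s0 : (finRotate 2).symm 0 = 1 := by decide
  have s1 : (finRotate 2).symm 1 = 0 := by decide
  refine ⟨![x₁ + u, x₂ + -u], ?_, ?_⟩
  · intro i
    fin_cases i
    · show (x₁ + u) ∈ frontier (BP S) ∧ _
      simp only [Fin.zero_eta, r0, s0, Matrix.cons_val_zero, Matrix.cons_val_one]
      rw [vBA]
      exact ⟨hAf, hne, TWO_ne d u hu, fun x hx => TWO_cond d S x₁ u hx₁ hu x hx⟩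
    · show (x₂ + -u) ∈ frontier (BP S) ∧ _
      simp only [Fin.mk_one, r1, s1, Matrix.cons_val_zero, Matrix.cons_val_one]
      rw [vAB]
      refine ⟨hBf, hne.symm, ?_, fun x hx => ?_⟩
      · have := TWO_ne d (-u) hu'
        rwa [neg_neg] at this
      · have := TWO_cond d S x₂ (-u) hx₂ hu' x hx
        rwa [neg_neg] at this
  · rw [Fin.sum_univ_two]
    simp only [r0, r1, Matrix.cons_val_zero, Matrix.cons_val_one]
    rw [dAB, dBA]; ring

end H738BB
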