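import Pool.Agent.H738R3.BB.Defs

/-!
WMAT: pairing of the first half of a positive measure with its second half.
-/

set_option autoImplicit false

namespace H738BB

/-- the overlap of two intervals -/
theorem WMAT_nonneg {a a' b b' : ℝ} (ha : a ≤ a') (hb : b ≤ b') :
    0 ≤ (min b' a' - min b' a) - (min b a' - min b a) := by
  rcases le_total b' a' with h1 | h1 <;> rcases le_total b' a with h2 | h2 <;>
    rcases le_total b a' with h3 | h3 <;> rcases le_total b a with h4 | h4 <;>
    simp only [min_eq_left, min_eq_right, h1, h2, h3, h4] <;> linarith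

theorem WMAT_pos {a a' b b' : ℝ} (ha : a ≤ a') (hb : b ≤ b')
    (h : 0 < (min b' a' - min b' a) - (min b a' - min b a)) :
    a < a' ∧ b < b' ∧ a < b' ∧ b < a' := by
  refine ⟨?_, ?_, ?_, ?_⟩ <;> by_contra hcon <;> rw [not_lt] at hcon
  · have : a = a' := le_antisymm ha hcon
    subst this
    linarith
  · have : b = b' := le_antisymm hb hcon
    subst this
    linarith
  · rw [min_eq_left (hcon.trans ha), min_eq_left hcon, min_eq_left ((hb.trans hcon).trans ha),
      min_eq_left (hb.trans hcon)] at h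
    linarith
  · rw [min_eq_right (hcon.trans hb), min_eq_right ((ha.trans hcon).trans hb),
      min_eq_right hcon, min_eq_right (ha.trans hcon)] at h
    linarith

theorem t_WMAT : S_WMAT := by
  classical
  intro n μ hμ
  obtain ⟨ν, hν⟩ : ∃ ν : ℕ → ℝ, ν = fun j => if h : j < n then μ ⟨j, h⟩ else 0 := ⟨_, rfl⟩
  have hν0 : ∀ j, 0 ≤ ν j := by
    intro j
    rw [hν]
    simp only
    split_ifs with h
    · exact (hμ _).le
    · exact le_rfl
  have hνe : ∀ e : Fin n, ν e = μ e := by
    intro e
    rw [hν]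
    simp only
    rw [dif_pos e.isLt]
  obtain ⟨T, hT⟩ : ∃ T : ℕ → ℝ, T = fun m => ∑ j ∈ Finset.range m, ν j := ⟨_, rfl⟩
  have hT0 : T 0 = 0 := by rw [hT]; simp
  have hTs : ∀ m, T (m + 1) = T m + ν m := by
    intro m
    rw [hT]
    exact Finset.sum_range_succ _ _
  have hTm : Monotone T := monotone_nat_of_le_succ fun m => by
    rw [hTs]
    linarith [hν0 m]
  have hTn : 0 ≤ T n := by rw [← hT0]; exact hTm (Nat.zero_le n)
  obtain ⟨h, hh⟩ : ∃ h : ℝ, h = T n / 2 := ⟨_, rfl⟩
  have hh0 : 0 ≤ h := by rw [hh]; linarith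
  obtain ⟨A, hA⟩ : ∃ A : ℕ → ℝ, A = fun m => min (T m) h := ⟨_, rfl⟩
  obtain ⟨B, hB⟩ : ∃ B : ℕ → ℝ, B = fun m => max (T m) h - h := ⟨_, rfl⟩
  have hAm : Monotone A := by
    intro x y hxy
    rw [hA]
    exact min_le_min (hTm hxy) le_rfl
  have hBm : Monotone B := by
    intro x y hxy
    rw [hB]
    exact sub_le_sub_right (max_le_max (hTm hxy) le_rfl) _
  have hA0 : A 0 = 0 := by
    rw [hA]
    simp only
    rw [hT0, min_eq_left hh0]
  have hAn : A n = h := by
    rw [hA]
    simp only
    rw [min_eq_right]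
    rw [hh]
    linarith
  have hB0 : B 0 = 0 := by
    rw [hB]
    simp only
    rw [hT0, max_eq_right hh0, sub_self]
  have hBn : B n = h := by
    rw [hB]
    simp only
    rw [max_eq_left (by rw [hh]; linarith), hh]
    linarith
  have hAB : ∀ m, A m + B m = T m := by
    intro m
    rw [hA, hB]
    simp only
    have := min_add_max (T m) h
    linarith
  have hAle : ∀ m, m ≤ n → 0 ≤ A m ∧ A m ≤ h := by
    intro m hm
    exact ⟨by rw [← hA0]; exact hAm (Nat.zero_le m), by rw [← hAn]; exact hAm hm⟩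
  have hBle : ∀ m, m ≤ n → 0 ≤ B m ∧ B m ≤ h := by
    intro m hm
    exact ⟨by rw [← hB0]; exact hBm (Nat.zero_le m), by rw [← hBn]; exact hBm hm⟩
  refine ⟨fun i k => (min (B (k + 1)) (A (i + 1)) - min (B (k + 1)) (A i)) -
    (min (B k) (A (i + 1)) - min (B k) (A i)), ?_, ?_, ?_⟩
  · intro i k
    exact WMAT_nonneg (hAm (Nat.le_succ _)) (hBm (Nat.le_succ _))
  · intro e
    have h1 : ∑ k : Fin n, ((min (B (k + 1)) (A (e + 1)) - min (B (k + 1)) (A e)) -
        (min (B k) (A (e + 1)) - min (B k) (A e))) = A (e + 1) - A e := by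
      rw [Fin.sum_univ_eq_sum_range (fun k => (min (B (k + 1)) (A (e + 1)) -
        min (B (k + 1)) (A e)) - (min (B k) (A (e + 1)) - min (B k) (A e))) n,
        Finset.sum_range_sub (fun k => min (B k) (A (e + 1)) - min (B k) (A e)), hBn, hB0]
      obtain ⟨p1, p2⟩ := hAle (e + 1) e.isLt
      obtain ⟨q1, q2⟩ := hAle e e.isLt.le
      rw [min_eq_right p2, min_eq_right q2, min_eq_left p1, min_eq_left q1]
      ring
    have h2 : ∑ i : Fin n, ((min (B (e + 1)) (A (i + 1)) - min (B (e + 1)) (A i)) -
        (min (B e) (A (i + 1)) - min (B e) (A i))) = B (e + 1) - B e := by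
      have h3 : ∀ i : Fin n, ((min (B (e + 1)) (A (i + 1)) - min (B (e + 1)) (A i)) -
        (min (B e) (A (i + 1)) - min (B e) (A i))) =
        (min (B (e + 1)) (A (i + 1)) - min (B e) (A (i + 1))) -
          (min (B (e + 1)) (A i) - min (B e) (A i)) := fun i => by ring
      rw [Finset.sum_congr rfl fun i _ => h3 i,
        Fin.sum_univ_eq_sum_range (fun i => (min (B (e + 1)) (A (i + 1)) -
          min (B e) (A (i + 1))) - (min (B (e + 1)) (A i) - min (B e) (A i))) n,
        Finset.sum_range_sub (fun i => min (B (e + 1)) (A i) - min (B e) (A i)), hAn, hA0]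
      obtain ⟨p1, p2⟩ := hBle (e + 1) e.isLt
      obtain ⟨q1, q2⟩ := hBle e e.isLt.le
      rw [min_eq_left p2, min_eq_left q2, min_eq_right p1, min_eq_right q1]
      ring
    show ∑ k : Fin n, ((min (B (k + 1)) (A (e + 1)) - min (B (k + 1)) (A e)) -
        (min (B k) (A (e + 1)) - min (B k) (A e))) +
      ∑ i : Fin n, ((min (B (e + 1)) (A (i + 1)) - min (B (e + 1)) (A i)) -
        (min (B e) (A (i + 1)) - min (B e) (A i))) = μ e
    rw [h1, h2]
    have h4 := hAB (e + 1)
    have h5 := hAB e
    have h6 := hTs e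
    rw [hνe e] at h6
    linarith
  · intro i k j l hik hjl
    obtain ⟨a1, a2, a3, a4⟩ := WMAT_pos (hAm (Nat.le_succ (i : ℕ))) (hBm (Nat.le_succ (k : ℕ))) hik
    obtain ⟨b1, b2, b3, b4⟩ := WMAT_pos (hAm (Nat.le_succ (j : ℕ))) (hBm (Nat.le_succ (l : ℕ))) hjl
    have hTi : ∀ m : ℕ, A m < A (m + 1) → T m < h := by
      intro m hm
      by_contra hcon
      rw [not_lt] at hcon
      have e1 : A m = h := by rw [hA]; exact min_eq_right hcon
      have e2 : A (m + 1) ≤ h := by rw [hA]; exact min_le_right _ _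
      linarith
    have hTk : ∀ m : ℕ, B m < B (m + 1) → h < T (m + 1) := by
      intro m hm
      by_contra hcon
      rw [not_lt] at hcon
      have e1 : B (m + 1) = 0 := by
        rw [hB]
        simp only
        rw [max_eq_right hcon, sub_self]
      have e2 : 0 ≤ B m := by
        rw [hB]
        simp only
        linarith [le_max_right (T m) h]
      linarith
    have c1 := hTi i a1
    have c2 := hTi j b1
    have c3 := hTk k a2
    have c4 := hTk l b2
    have hjk : j ≤ k := by
      by_contra hcon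
      rw [not_le] at hcon
      have : T (k + 1) ≤ T j := hTm (by exact_mod_cast hcon)
      linarith
    have hil : i ≤ l := by
      by_contra hcon
      rw [not_le] at hcon
      have : T (l + 1) ≤ T i := hTm (by exact_mod_cast hcon)
      linarith
    rcases lt_trichotomy i j with hij | hij | hij
    · left
      refine ⟨hij.le, hjk, ?_⟩
      by_contra hcon
      rw [not_le] at hcon
      have d1 : A (i + 1) ≤ A j := hAm (by exact_mod_cast hij)
      have d2 : B (l + 1) ≤ B k := hBm (by exact_mod_cast hcon)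
      linarith
    · rcases le_total k l with hkl | hkl
      · exact Or.inl ⟨hij.le, hjk, hkl⟩
      · exact Or.inr ⟨hij.ge, hil, hkl⟩
    · right
      refine ⟨hij.le, hil, ?_⟩
      by_contra hcon
      rw [not_le] at hcon
      have d1 : A (j + 1) ≤ A i := hAm (by exact_mod_cast hij)
      have d2 : B (k + 1) ≤ B l := hBm (by exact_mod_cast hcon)
      linarith

end H738BB
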